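import Pool.Agent.Lib.MP_7610b6_lc.Main

namespace Pool.Agent.Results.MP_7610b6_lc.DivisibilityTheory

open Pool.Agent.Lib.MP_7610b6_lc

/-- The first-order theory of `ℤ^solv`, with atomic formulas `f ∣ g` for products `f`, `g` of
linear polynomials with integer coefficients, is decidable. -/
theorem result : ComputablePred fun n : ℕ => ∃ φ : Fm, φ.code = n ∧ φ.Sat (fun _ => 0) :=
  decidable_theory

end Pool.Agent.Results.MP_7610b6_lc.DivisibilityTheory
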