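import Pool.Agent.Lib.ZS.Glob

namespace Pool.Agent.Results.MP_7610b6_lc.FanoHypersurfaces

open Pool.Agent.Lib.MP_7610b6_lc

/-- For a smooth projective hypersurface `F = 0` in `ℙⁿ` of degree `d` with `2 ≤ d ≤ 4` and `d ≤ n`,
the equation `F(1, x₁, …, xₙ) = 0` is solvable in `ℤ^solv` if and only if the greatest common
divisor of the non-constant coefficients divides the constant coefficient. -/
theorem result (n d : ℕ) (F : MvPolynomial (Fin (n + 1)) ℤ) (hF : F.IsHomogeneous d)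
    (h2 : 2 ≤ d) (h4 : d ≤ 4) (hn : d ≤ n)
    (hs : ∀ x : Fin (n + 1) → AlgebraicClosure ℚ,
      (∀ i, MvPolynomial.aeval x (MvPolynomial.pderiv i F) = 0) → x = 0) :
    (∃ x : Fin (n + 1) → AlgebraicClosure ℚ,
      (∀ i, x i ∈ Zsolv) ∧ x 0 = 1 ∧ MvPolynomial.aeval x F = 0) ↔
    ∀ m : ℤ, (∀ s, s ≠ Finsupp.single 0 d → m ∣ F.coeff s) → m ∣ F.coeff (Finsupp.single 0 d) := by
  simp only [Pool.Agent.Lib.ZS.aeval_eq_ev] at hs ⊢
  exact ⟨fun ⟨_, h1, h2, h3⟩ _ hm => Pool.Agent.Lib.ZS.dvd_of_zero h1 h2 h3 hm,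
    Pool.Agent.Lib.ZS.exists_zero hF h2 h4 (by simpa using Nat.lt_succ_of_le hn) hs⟩

end Pool.Agent.Results.MP_7610b6_lc.FanoHypersurfaces
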